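import Pool.Agent.H.MP_a163f2_lc.L.A6
import Pool.Agent.H.MP_a163f2_lc.L.B4
import Pool.Agent.H.MP_a163f2_lc.Z.Main

/-!
# MP_20495c_lc, block K, part 1: countable models inside a transitive class

`M` is a transitive class, a model of ZF, whose elements belong to levels of `M`; `E` is a countable
family of relations. There is a countable set `X ⊆ M` closed under witnesses for `E` whose collapse
is a countable level `s`, a model of ZF.
-/

set_option autoImplicit false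
set_option linter.unusedSectionVars false

namespace Pool.Agent.H.MP_20495c_lc.K

open Pool.Agent.H.MP_07d118_lc Pool.Agent.H.MP_a163f2_lc

/-- every element belongs to a level of the model -/
def LM (M : Set ZFSet.{0}) : Prop := ∀ x ∈ M, ∃ b ∈ M, L.Lev b ∧ x ∈ b

/-- The set `X` is closed under witnesses and its collapse is the level `s`. -/
structure Rf (M : Set ZFSet.{0}) (E : ℕ → (ℕ → M) → M → Prop) (X : Set ZFSet.{0})
    (s : ZFSet.{0}) : Prop where
  sub : X ⊆ M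
  cnt : {x : ZFSet.{0} | x ∈ s}.Countable
  gm : L.GM s
  mem_s : ∀ y, y ∈ s ↔ ∃ x ∈ X, L.col X x = y
  inj : ∀ x ∈ X, ∀ y ∈ X, L.col X x = L.col X y → x = y
  mem : ∀ x ∈ X, ∀ y, L.col X x ∈ L.col X y ↔ x ∈ y
  pair : ∀ x ∈ X, ∀ y ∈ X, ZFSet.pair x y ∈ X ∧
    L.col X (ZFSet.pair x y) = ZFSet.pair (L.col X x) (L.col X y)
  num : ∀ n, num n ∈ X ∧ L.col X (num n) = num n
  el : ∀ x ∈ X, (∃ z, z ∈ x) → ∃ z ∈ X, z ∈ x
  cl : ∀ (c : ℕ) (v : ℕ → M), (∀ i, (v i).1 ∈ X) → L.EC v → (∃ z, E c v z) →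
    ∃ z : M, z.1 ∈ X ∧ E c v z

variable {M : Set ZFSet.{0}}

theorem kst_mem (hT : Trans M) [ZF M] (hL : LM M) {b : ZFSet.{0}} (hb : b ∈ M)
    (hbl : L.Lev b) : L.Kst b ∈ M := by
  obtain ⟨c, hc⟩ := ZF.pairing (M := M) ⟨b, hb⟩ ⟨b, hb⟩
  have h1 : b ∈ c.1 := (hc ⟨b, hb⟩).2 (Or.inl rfl)
  obtain ⟨d, hd, hdl, hcd⟩ := hL c.1 c.2
  rcases hbl.next.cmp hdl with h | h | h
  · exact hT d hd _ h
  · rw [h]
    exact hd
  · have h2 : c.1 ∈ b := L.Kst_sub hbl.tr h _ hcd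
    exact absurd (hbl.tr _ h2 _ h1) (ZFSet.mem_irrefl b)

theorem rk_mem (hT : Trans M) (hL : LM M) {x b : ZFSet.{0}} (hx : x ∈ M)
    (h : L.Rk x b) : b ∈ M := by
  obtain ⟨d, hd, hdl, hxd⟩ := hL x hx
  exact hT d hd _ (h.mem hdl hxd)

theorem wit_mem (hT : Trans M) [ZF M] (hL : LM M) {c : ℕ} {v : ℕ → ZFSet.{0}} {z : ZFSet.{0}}
    (hv : ∀ i, v i ∈ M) (h : L.Wit c v z) : z ∈ M := by
  rcases h with ⟨-, h⟩ | ⟨-, b, hb, hz, -⟩ | ⟨-, b, hb, -, hz, -⟩ | ⟨-, h1, h2, h3, h⟩ | ⟨-, h⟩ |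
    ⟨-, h, -⟩
  · exact rk_mem hT hL (hv 0) h
  · exact hT b (rk_mem hT hL (hv 0) hb) z hz
  · exact hT b (rk_mem hT hL (hv 0) hb) z hz
  · rw [h]
    exact hT _ (kst_mem hT hL (hv 0) h1) _ (L.Dd_mem_Kst _ h2 h3)
  · by_cases h0 : z ∈ v 0
    · exact hT _ (hv 0) _ h0
    · have h1 : z ∈ v 1 := by
        by_contra h1
        exact h ⟨fun h => absurd h h0, fun h => absurd h h1⟩
      exact hT _ (hv 1) _ h1
  · exact hT _ (hv 0) _ h

/-- basic closure relations -/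
def Bs (c : ℕ) (v : ℕ → M) (z : M) : Prop :=
  (c = 0 ∧ z.1 = ZFSet.pair (v 0).1 (v 1).1) ∨ (c = 1 ∧ z.1 ∈ (v 0).1 ∧ z.1 ≠ (v 1).1) ∨
    (c = 2 ∧ z.1 ∈ (v 0).1)

theorem exists_rf (hT : Trans M) [ZF M] (hL : LM M) (E : ℕ → (ℕ → M) → M → Prop) :
    ∃ X s, Rf M E X s := by
  have hLL : M ⊆ L.LL := by
    intro x hx
    obtain ⟨b, -, hb, hxb⟩ := hL x hx
    exact ⟨b, hb, hxb⟩
  let R : ℕ → (ℕ → M) → M → Prop := fun c v z =>
    if c % 4 = 0 then L.Wit (c / 4) (fun i => (v i).1) z.1 else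
    if c % 4 = 1 then ¬ Sat (cons z v) (L.dec (c / 4)) else
    if c % 4 = 2 then Bs (c / 4) v z else E (c / 4) v z
  have hR0 : ∀ c v z, R (4 * c) v z ↔ L.Wit c (fun i => (v i).1) z.1 := by
    intro c v z
    simp only [R]
    rw [if_pos (by omega), show 4 * c / 4 = c by omega]
  have hR1 : ∀ c v z, R (4 * c + 1) v z ↔ ¬ Sat (cons z v) (L.dec c) := by
    intro c v z
    simp only [R]
    rw [if_neg (by omega), if_pos (by omega), show (4 * c + 1) / 4 = c by omega]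
  have hR2 : ∀ c v z, R (4 * c + 2) v z ↔ Bs c v z := by
    intro c v z
    simp only [R]
    rw [if_neg (by omega), if_neg (by omega), if_pos (by omega),
      show (4 * c + 2) / 4 = c by omega]
  have hR3 : ∀ c v z, R (4 * c + 3) v z ↔ E c v z := by
    intro c v z
    simp only [R]
    rw [if_neg (by omega), if_neg (by omega), if_neg (by omega),
      show (4 * c + 3) / 4 = c by omega]
  obtain ⟨e, he0, he⟩ := L.exists_closed R (fun n => (nm n : M))
  obtain ⟨X, hXdef⟩ : ∃ X : Set ZFSet.{0}, X = Set.range fun j => (e j).1 := ⟨_, rfl⟩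
  have hmemX : ∀ j, (e j).1 ∈ X := fun j => by rw [hXdef]; exact ⟨j, rfl⟩
  have hXM : X ⊆ M := by
    rw [hXdef]
    rintro _ ⟨j, rfl⟩
    exact (e j).2
  have hXe : ∀ x : M, x.1 ∈ X → ∃ j, e j = x := by
    intro x hx
    rw [hXdef] at hx
    obtain ⟨j, hj⟩ := hx
    exact ⟨j, Subtype.ext hj⟩
  have hcl : ∀ (c : ℕ) (v : ℕ → M), (∀ i, (v i).1 ∈ X) → L.EC v → (∃ z, R c v z) →
      ∃ z : M, z.1 ∈ X ∧ R c v z := by
    intro c v hv hec hz
    obtain ⟨j, hj⟩ := he c v (fun i => hXe _ (hv i)) hec hz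
    exact ⟨e j, hmemX j, hj⟩
  have hX : L.Clo X := by
    rintro c v hv hec ⟨z, hz⟩
    have hvM : ∀ i, v i ∈ M := fun i => hXM (hv i)
    obtain ⟨w, hw, hw'⟩ := hcl (4 * c) (fun i => ⟨v i, hvM i⟩) hv (by
      obtain ⟨N, hN⟩ := hec
      exact ⟨N, fun i hi => Subtype.ext (hN i hi)⟩)
      ⟨⟨z, wit_mem hT hL hvM hz⟩, (hR0 _ _ _).2 hz⟩
    exact ⟨w.1, hw, (hR0 _ _ _).1 hw'⟩
  have hLX : X ⊆ L.LL := hXM.trans hLL
  obtain ⟨u, hu⟩ : ∃ u : ZFSet.{0}, u = ZFSet.range (fun j : ℕ => (e j).1) := ⟨_, rfl⟩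
  have hXu : ∀ x, x ∈ u ↔ x ∈ X := by
    intro x
    rw [hu, ZFSet.mem_range, hXdef]
    exact Iff.rfl
  have hs : ∀ y, y ∈ L.col X u ↔ ∃ x ∈ X, L.col X x = y := by
    intro y
    rw [L.mem_col]
    constructor
    · rintro ⟨z, -, hz, rfl⟩
      exact ⟨z, hz, rfl⟩
    · rintro ⟨z, hz, rfl⟩
      exact ⟨z, (hXu z).2 hz, hz, rfl⟩
  have hel : ∀ x ∈ X, (∃ z, z ∈ x) → ∃ z ∈ X, z ∈ x := by
    rintro x hx ⟨z, hz⟩
    obtain ⟨w, hw, hw'⟩ := hcl (4 * 2 + 2) (fun _ => ⟨x, hXM hx⟩) (fun _ => hx) ⟨0, fun _ _ => rfl⟩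
      ⟨⟨z, hT x (hXM hx) z hz⟩, (hR2 _ _ _).2 (Or.inr (Or.inr ⟨rfl, hz⟩))⟩
    rcases (hR2 _ _ _).1 hw' with ⟨h, -⟩ | ⟨h, -⟩ | ⟨-, h⟩
    · omega
    · omega
    · exact ⟨w.1, hw, h⟩
  have hec2 : ∀ (a b : M), L.EC (cons a (fun _ => b)) := by
    intro a b
    refine ⟨1, fun i hi => ?_⟩
    obtain ⟨j, rfl⟩ : ∃ j, i = j + 1 := ⟨i - 1, by omega⟩
    rfl
  have hel2 : ∀ x ∈ X, ∀ y ∈ X, (∃ z, z ∈ x ∧ z ≠ y) → ∃ z ∈ X, z ∈ x ∧ z ≠ y := by
    rintro x hx y hy ⟨z, hz, hzy⟩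
    obtain ⟨w, hw, hw'⟩ := hcl (4 * 1 + 2) (cons ⟨x, hXM hx⟩ (fun _ => ⟨y, hXM hy⟩)) (fun i => by
        cases i with
        | zero => exact hx
        | succ i => exact hy) (hec2 _ _)
      ⟨⟨z, hT x (hXM hx) z hz⟩, (hR2 _ _ _).2 (Or.inr (Or.inl ⟨rfl, hz, hzy⟩))⟩
    rcases (hR2 _ _ _).1 hw' with ⟨h, -⟩ | ⟨-, h⟩ | ⟨h, -⟩
    · omega
    · exact ⟨w.1, hw, h⟩
    · omega
  have htwo : ∀ x ∈ X, ∀ a b, (∀ z ∈ x, z = a ∨ z = b) → a ∈ x → a ∈ X := by
    intro x hx a b hab ha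
    obtain ⟨z, hz, hzx⟩ := hel x hx ⟨a, ha⟩
    rcases hab z hzx with rfl | rfl
    · exact hz
    · by_cases h : a = z
      · rw [h]
        exact hz
      · obtain ⟨w, hw, hwx, hwz⟩ := hel2 x hx z hz ⟨a, ha, h⟩
        rcases hab w hwx with rfl | rfl
        · exact hw
        · exact absurd rfl hwz
  have hpair : ∀ x ∈ X, ∀ y ∈ X, ZFSet.pair x y ∈ X := by
    intro x hx y hy
    have h1 : ZFSet.pair x y ∈ M := by
      have h2 := Z.abs_opair hT (⟨x, hXM hx⟩ : M) ⟨y, hXM hy⟩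
      have h3 : ZFSet.pair x y = (opair (⟨x, hXM hx⟩ : M) ⟨y, hXM hy⟩ : M).1 := h2.symm
      rw [h3]
      exact (opair (⟨x, hXM hx⟩ : M) ⟨y, hXM hy⟩ : M).2
    obtain ⟨w, hw, hw'⟩ := hcl (4 * 0 + 2) (cons ⟨x, hXM hx⟩ (fun _ => ⟨y, hXM hy⟩)) (fun i => by
        cases i with
        | zero => exact hx
        | succ i => exact hy) (hec2 _ _)
      ⟨⟨ZFSet.pair x y, h1⟩, (hR2 _ _ _).2 (Or.inl ⟨rfl, rfl⟩)⟩
    rcases (hR2 _ _ _).1 hw' with ⟨-, h⟩ | ⟨h, -⟩ | ⟨h, -⟩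
    · have h2 : w.1 = ZFSet.pair x y := h
      rwa [h2] at hw
    · omega
    · omega
  have hnum : ∀ n, num n ∈ X := by
    intro n
    obtain ⟨j, hj⟩ := he0 n
    have h1 : (e j).1 = num n := by
      rw [hj]
      exact Z.abs_nm hT n
    rw [← h1]
    exact hmemX j
  refine ⟨X, L.col X u, hXM, ?_, ?_, hs, fun x hx y hy => hX.col_inj hx hy,
    fun x hx y => hX.col_mem hx, ?_, ?_, hel, ?_⟩
  · have h1 : {y : ZFSet.{0} | y ∈ L.col X u} ⊆ Set.range fun j => L.col X (e j).1 := by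
      intro y hy
      obtain ⟨x, hx, rfl⟩ := (hs y).1 hy
      obtain ⟨j, hj⟩ := hXe ⟨x, hXM hx⟩ hx
      exact ⟨j, by simp only [hj]⟩
    exact (Set.countable_range _).mono h1
  · refine ⟨hX.col_top hLX fun x hx => (hXu x).2 hx, ?_⟩
    have hgm : ∀ j, L.col X (e j).1 ∈ L.col X u := fun j => (hs _).2 ⟨_, hmemX j, rfl⟩
    let g : ℕ → {x : ZFSet.{0} | x ∈ L.col X u} := fun j => ⟨L.col X (e j).1, hgm j⟩
    have hg : Function.Surjective g := by
      rintro ⟨y, hy⟩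
      obtain ⟨x, hx, rfl⟩ := (hs y).1 hy
      obtain ⟨j, hj⟩ := hXe ⟨x, hXM hx⟩ hx
      exact ⟨j, Subtype.ext (by simp only [g, hj])⟩
    have key : ∀ (φ : Fml) (w : ℕ → ℕ), Sat (fun i => g (w i)) φ ↔ Sat (fun i => e (w i)) φ := by
      intro φ
      induction φ with
      | mem i j =>
        intro w
        exact hX.col_mem (hmemX _)
      | eq i j =>
        intro w
        constructor
        · intro h
          exact Subtype.ext (hX.col_inj (hmemX _) (hmemX _) (congrArg Subtype.val h))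
        · intro h
          exact Subtype.ext (congrArg (fun x : M => L.col X x.1) h)
      | bot => exact fun _ => Iff.rfl
      | imp φ ψ ih1 ih2 =>
        intro w
        show (Sat _ φ → Sat _ ψ) ↔ (Sat _ φ → Sat _ ψ)
        rw [ih1 w, ih2 w]
      | all φ ih =>
        intro w
        have h1 : ∀ j, (Sat (cons (g j) fun i => g (w i)) φ ↔
            Sat (cons (e j) fun i => e (w i)) φ) := by
          intro j
          have := ih (cons j w)
          have e1 : (fun i => g (cons j w i)) = cons (g j) fun i => g (w i) := by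
            funext i
            cases i <;> rfl
          have e2 : (fun i => e (cons j w i)) = cons (e j) fun i => e (w i) := by
            funext i
            cases i <;> rfl
          rwa [e1, e2] at this
        constructor
        · intro h
          by_contra hcon
          have hcon : ∃ x : M, ¬ Sat (cons x fun i => e (w i)) φ := not_forall.1 hcon
          obtain ⟨N, hN⟩ := L.exists_bd φ
          obtain ⟨n, rfl⟩ := L.dec_surj φ
          have hag : ∀ x : M, Sat (cons x (fun i => e (if i < N then w i else w N))) (L.dec n) ↔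
              Sat (cons x fun i => e (w i)) (L.dec n) := by
            intro x
            refine L.sat_bd (hN.mono (Nat.le_succ N)) fun i hi => ?_
            cases i with
            | zero => rfl
            | succ i =>
              show e (if i < N then w i else w N) = e (w i)
              rw [if_pos (by omega)]
          obtain ⟨j, hj⟩ := he (4 * n + 1) (fun i => e (if i < N then w i else w N))
            (fun i => ⟨_, rfl⟩) ⟨N, fun i hi => by
              beta_reduce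
              rw [if_neg (not_lt.2 hi), if_neg (lt_irrefl N)]⟩ (by
              obtain ⟨x, hx⟩ := hcon
              refine ⟨x, ?_⟩
              rw [hR1, hag]
              exact hx)
          rw [hR1, hag] at hj
          exact hj ((h1 j).1 (h (g j)))
        · intro h y
          obtain ⟨j, rfl⟩ := hg y
          exact (h1 j).2 (h (e j))
    have hne : Nonempty {x : ZFSet.{0} | x ∈ L.col X u} := ⟨g 0⟩
    refine L.zf_of_sat (M := M) fun φ hφ v => ?_
    choose w hw using fun i => hg (v i)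
    have : v = fun i => g (w i) := funext fun i => (hw i).symm
    rw [this, key]
    exact hφ _
  · intro x hx y hy
    have hp := hpair x hx y hy
    refine ⟨hp, ?_⟩
    have h1 : ({x} : ZFSet.{0}) ∈ X := htwo _ hp {x} {x, y} (fun z hz => ZFSet.mem_pair.1 hz)
      (ZFSet.mem_pair.2 (Or.inl rfl))
    have h2 : ({x, y} : ZFSet.{0}) ∈ X := htwo _ hp {x, y} {x}
      (fun z hz => (ZFSet.mem_pair.1 hz).symm) (ZFSet.mem_pair.2 (Or.inr rfl))
    have h3 : L.col X {x} = {L.col X x} := by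
      refine ZFSet.ext fun z => ?_
      rw [L.mem_col, ZFSet.mem_singleton]
      constructor
      · rintro ⟨w, hw, -, rfl⟩
        rw [ZFSet.mem_singleton.1 hw]
      · rintro rfl
        exact ⟨x, ZFSet.mem_singleton.2 rfl, hx, rfl⟩
    have h4 : L.col X {x, y} = {L.col X x, L.col X y} := by
      refine ZFSet.ext fun z => ?_
      rw [L.mem_col, ZFSet.mem_pair]
      constructor
      · rintro ⟨w, hw, -, rfl⟩
        rcases ZFSet.mem_pair.1 hw with rfl | rfl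
        · exact Or.inl rfl
        · exact Or.inr rfl
      · rintro (rfl | rfl)
        · exact ⟨x, ZFSet.mem_pair.2 (Or.inl rfl), hx, rfl⟩
        · exact ⟨y, ZFSet.mem_pair.2 (Or.inr rfl), hy, rfl⟩
    refine ZFSet.ext fun z => ?_
    rw [L.mem_col]
    constructor
    · rintro ⟨w, hw, -, rfl⟩
      rcases ZFSet.mem_pair.1 hw with rfl | rfl
      · exact ZFSet.mem_pair.2 (Or.inl h3)
      · exact ZFSet.mem_pair.2 (Or.inr h4)
    · intro hz
      rcases ZFSet.mem_pair.1 hz with rfl | rfl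
      · exact ⟨{x}, ZFSet.mem_pair.2 (Or.inl rfl), h1, h3⟩
      · exact ⟨{x, y}, ZFSet.mem_pair.2 (Or.inr rfl), h2, h4⟩
  · intro n
    refine ⟨hnum n, ?_⟩
    induction n with
    | zero =>
      refine ZFSet.ext fun z => ?_
      rw [L.mem_col]
      constructor
      · rintro ⟨w, hw, -, -⟩
        exact absurd hw (ZFSet.notMem_empty w)
      · intro hz
        exact absurd hz (ZFSet.notMem_empty z)
    | succ n ih =>
      refine ZFSet.ext fun z => ?_
      rw [L.mem_col]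
      show (∃ w ∈ (insert (num n) (num n) : ZFSet.{0}), w ∈ X ∧ L.col X w = z) ↔
        z ∈ (insert (num n) (num n) : ZFSet.{0})
      rw [ZFSet.mem_insert_iff]
      constructor
      · rintro ⟨w, hw, hwX, rfl⟩
        rcases ZFSet.mem_insert_iff.1 hw with rfl | hw
        · exact Or.inl ih
        · refine Or.inr ?_
          rw [← ih]
          exact L.mem_col.2 ⟨w, hw, hwX, rfl⟩
      · rintro (rfl | hz)
        · exact ⟨num n, ZFSet.mem_insert_iff.2 (Or.inl rfl), hnum n, ih⟩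
        · rw [← ih] at hz
          obtain ⟨w, hw, hwX, rfl⟩ := L.mem_col.1 hz
          exact ⟨w, ZFSet.mem_insert_iff.2 (Or.inr hw), hwX, rfl⟩
  · intro c v hv hec hz
    obtain ⟨z, hz⟩ := hz
    obtain ⟨w, hw, hw'⟩ := hcl (4 * c + 3) v hv hec ⟨z, (hR3 _ _ _).2 hz⟩
    exact ⟨w, hw, (hR3 _ _ _).1 hw'⟩

end Pool.Agent.H.MP_20495c_lc.K
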