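import Pool.Agent.H.MP_20495c_lc.K.C1
import Pool.Agent.H.MP_20495c_lc.TE.Ext
import Pool.Agent.H.MP_20495c_lc.Fin0

/-!
# MP_20495c_lc, block K, part 2: generic extensions of transitive classes
-/

set_option autoImplicit false
set_option linter.unusedSectionVars false

namespace Pool.Agent.H.MP_20495c_lc.K

open Pool.Agent.H.MP_07d118_lc Pool.Agent.H.MP_a163f2_lc

/-- the extension of a transitive class -/
noncomputable def cxt (M : Set ZFSet.{0}) [ZF M] (G : Set ZFSet.{0}) : Set ZFSet.{0} :=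
  Z.Ex (Z.zval {x : M | (x : ZFSet.{0}) ∈ G})

variable {M : Set ZFSet.{0}}

theorem gen_of_generic (hT : Trans M) [ZF M] {P L : M}
    (hrefl : ∀ p ∈ (P : ZFSet.{0}), ZFSet.pair p p ∈ (L : ZFSet.{0}))
    (htrans : ∀ p ∈ (P : ZFSet.{0}), ∀ q ∈ (P : ZFSet.{0}), ∀ r ∈ (P : ZFSet.{0}),
      ZFSet.pair p q ∈ (L : ZFSet.{0}) → ZFSet.pair q r ∈ (L : ZFSet.{0}) →
      ZFSet.pair p r ∈ (L : ZFSet.{0})) {G : Set ZFSet.{0}}
    (hG : Generic M (P : ZFSet.{0}) (L : ZFSet.{0}) G) :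
    Z.Gen P L {x : M | (x : ZFSet.{0}) ∈ G} := by
  have hple : ∀ p q : M, Z.Ple P L p q ↔ p.1 ∈ P.1 ∧ q.1 ∈ P.1 ∧ ZFSet.pair p.1 q.1 ∈ L.1 := by
    intro p q
    unfold Z.Ple
    rw [← Z.abs_opair hT]
    exact Iff.rfl
  have hin : ∀ p ∈ G, p ∈ M := fun p hp => hT _ P.2 p (hG.sub p hp)
  refine ⟨?_, ?_, ?_, ?_, ?_, ?_, ?_⟩
  · intro p hp
    rw [hple]
    exact ⟨hp, hp, hrefl _ hp⟩
  · intro p q r h1 h2
    rw [hple] at h1 h2 ⊢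
    exact ⟨h1.1, h2.2.1, htrans _ h1.1 _ h1.2.1 _ h2.2.1 h1.2.2 h2.2.2⟩
  · intro p hp
    exact hG.sub _ hp
  · obtain ⟨p, hp⟩ := hG.ne
    exact ⟨⟨p, hin p hp⟩, hp⟩
  · intro p q hp hpq
    rw [hple] at hpq
    exact hG.up _ hp _ hpq.2.1 hpq.2.2
  · intro p q hp hq
    obtain ⟨r, hr, h1, h2⟩ := hG.dir _ hp _ hq
    exact ⟨⟨r, hin r hr⟩, hr, (hple _ _).2 ⟨hG.sub r hr, hG.sub _ hp, h1⟩,
      (hple _ _).2 ⟨hG.sub r hr, hG.sub _ hq, h2⟩⟩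
  · intro D hD
    obtain ⟨p, hp, hpD⟩ := hG.meets D.1 D.2 fun p hp => by
      obtain ⟨q, hq, hqD⟩ := hD ⟨p, hT _ P.2 p hp⟩ hp
      rw [hple] at hq
      exact ⟨q.1, hq.1, hq.2.2, hqD⟩
    exact ⟨⟨p, hin p hp⟩, hp, hpD⟩

/-- `r` is a name of the real `x` -/
def NR (G : Set ZFSet.{0}) (r : ZFSet.{0}) (x : ℕ → ℕ) : Prop :=
  ∀ n k, x n = k ↔ ∃ p ∈ G, ZFSet.pair (ZFSet.pair (num n) (num k)) p ∈ r

theorem NR.unique {G : Set ZFSet.{0}} {r : ZFSet.{0}} {x y : ℕ → ℕ} (h : NR G r x)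
    (h' : NR G r y) : x = y := by
  funext n
  exact ((h' n (x n)).2 ((h n (x n)).1 rfl)).symm

theorem mem_reals_cxt (hT : Trans M) [ZF M] {P L : M} {G : Set ZFSet.{0}}
    (hG : Z.Gen P L {x : M | (x : ZFSet.{0}) ∈ G}) (hGM : ∀ p ∈ G, p ∈ M) {x : ℕ → ℕ} :
    x ∈ Reals (cxt M G) ↔ ∃ r ∈ M, NR G r x := by
  have h1 := Z.reals_ex hT hG (Z.isVal_zval _) x
  have e : ∀ (n k : ℕ) (p : M), (opair (opair (nm n) (nm k)) p : M).1 =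
      ZFSet.pair (ZFSet.pair (num n) (num k)) p.1 := by
    intro n k p
    rw [Z.abs_opair hT, Z.abs_opair hT, Z.abs_nm hT, Z.abs_nm hT]
  refine h1.trans ?_
  constructor
  · rintro ⟨R, hR⟩
    refine ⟨R.1, R.2, fun n k => (hR n k).trans ?_⟩
    constructor
    · rintro ⟨p, hp, h2⟩
      refine ⟨p.1, hp, ?_⟩
      rw [← e]
      exact h2
    · rintro ⟨p, hp, h2⟩
      refine ⟨⟨p, hGM p hp⟩, hp, ?_⟩
      rw [← e n k ⟨p, hGM p hp⟩] at h2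
      exact h2
  · rintro ⟨r, hr, hR⟩
    refine ⟨⟨r, hr⟩, fun n k => (hR n k).trans ?_⟩
    constructor
    · rintro ⟨p, hp, h2⟩
      refine ⟨⟨p, hGM p hp⟩, hp, ?_⟩
      rw [← e n k ⟨p, hGM p hp⟩] at h2
      exact h2
    · rintro ⟨p, hp, h2⟩
      refine ⟨p.1, hp, ?_⟩
      rw [← e]
      exact h2

/-- the generic filter is an element of the extension -/
theorem gen_mem (hT : Trans M) [ZF M] {P L : M} {Gs : Set M} (hg : Z.Gen P L Gs)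
    {G : ZFSet.{0}} (hGG : ∀ z, z ∈ G ↔ ∃ x : M, Gs x ∧ x.1 = z) : G ∈ Z.Ex (Z.zval Gs) := by
  have hval := Z.isVal_zval (S := M) Gs
  have hGn : Z.Gn Gs := ⟨_, _, hg⟩
  have hcd : DfF (fun w : Fin 1 → M => Z.chk P (w 0)) := Z.DfF.Chk P (DfF.var 0)
  have hQ : Z.Good Gs (fun w : Fin 1 → M => ∃ p : M, w 0 = Z.chk P p ∧ Gs p) := by
    refine Z.Good.ex (Q := fun p (w : Fin 1 → M) => w 0 = Z.chk P p ∧ Gs p) (Z.Good.and ?_ ?_)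
    · exact Z.Good.of_df (Df.eq (DfF.var 1) (Z.DfF.Chk P (DfF.var 0)))
    · exact Z.Good.memG (DfF.var 0)
  obtain ⟨τ, -, hτ⟩ := Z.ex_sep hg hval (Q := fun π => ∃ p : M, π = Z.chk P p ∧ Gs p) hQ
    (image P (Z.chk P))
  refine ⟨τ, ZFSet.ext fun z => ?_⟩
  rw [hτ, hGG]
  constructor
  · rintro ⟨π, -, ⟨p, rfl, hp⟩, rfl⟩
    exact ⟨p, hp, (Z.val_chk hT hg hval p).symm⟩
  · rintro ⟨p, hp, rfl⟩
    exact ⟨Z.chk P p, (mem_image hcd).2 ⟨p, hg.sub p hp, rfl⟩, ⟨p, rfl, hp⟩,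
      (Z.val_chk hT hg hval p).symm⟩

/-- the extension is the least model -/
theorem isGext_cxt (hT : Trans M) [ZFC M] {P L G : ZFSet.{0}} (hP : P ∈ M) (hL : L ∈ M)
    (h : IsPre P L) (hG : Generic M P L {x | x ∈ G}) : IsGext M G (cxt M {x | x ∈ G}) := by
  obtain ⟨Gs, hGs⟩ : ∃ Gs : Set M, Gs = {x : M | (x : ZFSet.{0}) ∈ {x | x ∈ G}} := ⟨_, rfl⟩
  have hg := gen_of_generic hT (P := ⟨P, hP⟩) (L := ⟨L, hL⟩) h.refl h.trans hG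
  have hGM : ∀ p ∈ G, p ∈ M := fun p hp => hT _ hP p (hG.sub p hp)
  have hmem : ∀ x : M, (x : ZFSet.{0}) ∈ G ↔ Gs x := by
    intro x
    rw [hGs]
    exact Iff.rfl
  unfold cxt
  rw [← hGs] at hg ⊢
  have hval := Z.isVal_zval (S := M) Gs
  refine ⟨Z.ex_trans hval, Z.zfc_ex hg hval, fun x hx => ⟨Z.chk ⟨P, hP⟩ ⟨x, hx⟩,
    Z.val_chk hT hg hval ⟨x, hx⟩⟩, ?_, ?_⟩
  · refine gen_mem hT hg fun z => ?_
    constructor
    · intro hz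
      exact ⟨⟨z, hGM z hz⟩, (hmem _).1 hz, rfl⟩
    · rintro ⟨x, hx, rfl⟩
      exact (hmem x).2 hx
  · intro N' h1 h2 h3 h4
    rintro _ ⟨x, rfl⟩
    exact zval_mem hT h1 h3 _ h4 (fun x => hmem x) x

end Pool.Agent.H.MP_20495c_lc.K
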