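import Pool.Agent.H.MP_20495c_lc.K.C2
import Pool.Agent.H.MP_20495c_lc.Un0
import Pool.Agent.H.MP_a163f2_lc.E.E5

/-!
# MP_20495c_lc, block K, part 3: reflection of generic filters

If every preorder of the transitive class `M` has a generic filter such that the uniformization
statement fails in the extension, then there is a countable level with the same property.
-/

set_option autoImplicit false
set_option linter.unusedSectionVars false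

namespace Pool.Agent.H.MP_20495c_lc.K

open Pool.Agent.H.MP_07d118_lc Pool.Agent.H.MP_a163f2_lc

/-- the pair `x, y` refutes that `b'` is the code of a uniformization of the set with the code `b` -/
def Cn (R : Set (ℕ → ℕ)) (n : ℕ) (b b' x y : ℕ → ℕ) : Prop :=
  (¬ TS R n b' (jn x y) ∧ TS R n b (jn x y)) ∨
  (¬ TS R n b (jn x y) ∧ ∀ z ∈ R, ¬ TS R n b' (jn x z) → ∃ z' ∈ R, ¬ TS R n b' (jn x z') ∧ z' ≠ z)

theorem not_unC_iff {R : Set (ℕ → ℕ)} {n : ℕ} :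
    ¬ UnC R n ↔ ∃ b ∈ R, ∀ b' ∈ R, ∃ x ∈ R, ∃ y ∈ R, Cn R n b b' x y := by
  unfold UnC Cn
  push Not
  refine exists_congr fun b => and_congr_right fun hb => forall_congr' fun b' =>
    forall_congr' fun hb' => ?_
  constructor
  · intro h
    by_cases hc : ∀ x ∈ R, ∀ y ∈ R, ¬ TS R n b' (jn x y) → ¬ TS R n b (jn x y)
    · obtain ⟨x, hx, y, hy, h1, h2⟩ := h hc
      exact ⟨x, hx, y, hy, Or.inr ⟨h1, h2⟩⟩
    · push Not at hc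
      obtain ⟨x, hx, y, hy, h1, h2⟩ := hc
      exact ⟨x, hx, y, hy, Or.inl ⟨h1, h2⟩⟩
  · rintro ⟨x, hx, y, hy, h1 | h1⟩ h
    · exact absurd h1.2 (h x hx y hy h1.1)
    · exact ⟨x, hx, y, hy, h1.1, h1.2⟩

variable {M : Set ZFSet.{0}}

/-- the closure relations -/
def EE (𝒢 : M → M → Set ZFSet.{0}) (R : M → M → Set (ℕ → ℕ)) (n : ℕ) :
    ℕ → ℕ → M → M → M → M → M → M → Prop
  | 0, _, P, L, _, _, _, z => z.1 ∈ 𝒢 P L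
  | 1, _, P, L, a, b, _, z => z.1 ∈ 𝒢 P L ∧ ZFSet.pair z.1 a.1 ∈ L.1 ∧ ZFSet.pair z.1 b.1 ∈ L.1
  | 2, _, P, L, a, _, _, z => z.1 ∈ P.1 ∧ ∀ q ∈ P.1, ZFSet.pair q z.1 ∈ L.1 → q ∉ a.1
  | 3, _, P, L, a, _, _, z => z.1 ∈ 𝒢 P L ∧ z.1 ∈ a.1
  | 4, _, P, L, _, _, _, z => z.1 ∈ P.1 ∧ ZFSet.pair z.1 z.1 ∉ L.1
  | 5, _, P, L, _, _, _, z => z.1 ∈ P.1 ∧ ∃ q ∈ P.1, ∃ r ∈ P.1, ZFSet.pair z.1 q ∈ L.1 ∧
      ZFSet.pair q r ∈ L.1 ∧ ZFSet.pair z.1 r ∉ L.1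
  | 6, _, P, L, a, _, _, z => z.1 ∈ P.1 ∧ ∃ r ∈ P.1, ZFSet.pair a.1 z.1 ∈ L.1 ∧
      ZFSet.pair z.1 r ∈ L.1 ∧ ZFSet.pair a.1 r ∉ L.1
  | 7, _, P, L, a, b, _, z => z.1 ∈ P.1 ∧ ZFSet.pair a.1 b.1 ∈ L.1 ∧
      ZFSet.pair b.1 z.1 ∈ L.1 ∧ ZFSet.pair a.1 z.1 ∉ L.1
  | 8, m, P, L, a, _, _, z => z.1 ∈ 𝒢 P L ∧
      ZFSet.pair (ZFSet.pair (num m.unpair.1) (num m.unpair.2)) z.1 ∈ a.1
  | 9, m, P, L, a, b, _, z => ∃ u x y, NR (𝒢 P L) a.1 u ∧ NR (𝒢 P L) b.1 x ∧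
      NR (𝒢 P L) z.1 y ∧ ¬ TS (R P L) m u (jn x y)
  | 10, _, P, L, _, _, _, z => ∃ u, NR (𝒢 P L) z.1 u ∧
      ∀ b' ∈ R P L, ∃ x ∈ R P L, ∃ y ∈ R P L, Cn (R P L) n u b' x y
  | 11, _, P, L, a, b, _, z => ∃ u u' x, NR (𝒢 P L) a.1 u ∧ NR (𝒢 P L) b.1 u' ∧
      NR (𝒢 P L) z.1 x ∧ ∃ y ∈ R P L, Cn (R P L) n u u' x y
  | 12, _, P, L, a, b, c, z => ∃ u u' x y, NR (𝒢 P L) a.1 u ∧ NR (𝒢 P L) b.1 u' ∧
      NR (𝒢 P L) c.1 x ∧ NR (𝒢 P L) z.1 y ∧ Cn (R P L) n u u' x y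
  | 13, _, P, L, a, b, c, z => ∃ u' x w z', NR (𝒢 P L) a.1 u' ∧ NR (𝒢 P L) b.1 x ∧
      NR (𝒢 P L) c.1 w ∧ NR (𝒢 P L) z.1 z' ∧ ¬ TS (R P L) n u' (jn x z') ∧ z' ≠ w
  | _, _, _, _, _, _, _, _ => False

/-- the closure relations in the form needed -/
def EF (𝒢 : M → M → Set ZFSet.{0}) (R : M → M → Set (ℕ → ℕ)) (n : ℕ) (c : ℕ) (v : ℕ → M)
    (z : M) : Prop := EE 𝒢 R n c.unpair.1 c.unpair.2 (v 0) (v 1) (v 2) (v 3) (v 4) z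

theorem Rf.ee {𝒢 : M → M → Set ZFSet.{0}} {R : M → M → Set (ℕ → ℕ)} {n : ℕ} {X : Set ZFSet.{0}}
    {s : ZFSet.{0}} (h : Rf M (EF 𝒢 R n) X s) (i j : ℕ) {P Lo a b c : M} (hP : P.1 ∈ X)
    (hL : Lo.1 ∈ X) (ha : a.1 ∈ X) (hb : b.1 ∈ X) (hc : c.1 ∈ X)
    (hz : ∃ z, EE 𝒢 R n i j P Lo a b c z) : ∃ z : M, z.1 ∈ X ∧ EE 𝒢 R n i j P Lo a b c z := by
  have e : ∀ z, EF 𝒢 R n (Nat.pair i j) (L.pad [P, Lo, a, b] c) z ↔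
      EE 𝒢 R n i j P Lo a b c z := by
    intro z
    unfold EF
    rw [Nat.unpair_pair]
    exact Iff.rfl
  obtain ⟨z, hz, hz'⟩ := h.cl (Nat.pair i j) (L.pad [P, Lo, a, b] c)
    (L.pad_mem (P := fun x : M => x.1 ∈ X) (by simp [hP, hL, ha, hb]) hc) (L.ec_pad _ _) (by
      obtain ⟨z, hz⟩ := hz
      exact ⟨z, (e z).2 hz⟩)
  exact ⟨z, hz, (e z).1 hz'⟩

theorem cxt_tr [ZF M] (G : Set ZFSet.{0}) : Trans (cxt M G) := Z.ex_trans (Z.isVal_zval _)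

theorem cxt_zfc [ZFC M] {P Lo : M} {G : Set ZFSet.{0}}
    (hG : Z.Gen P Lo {x : M | (x : ZFSet.{0}) ∈ G}) : ZFC (cxt M G) :=
  Z.zfc_ex hG (Z.isVal_zval _)

/-- **Reflection.** -/
theorem reflect (hT : Trans M) [ZFC M] (hL : LM M) {n : ℕ}
    (hbad : ∀ P Lo : M, IsPre P.1 Lo.1 → ∃ G : Set ZFSet.{0}, Generic M P.1 Lo.1 G ∧
      ¬ UnC (Reals (cxt M G)) n) :
    ∃ (s : ZFSet.{0}) (_ : L.GM s), {x : ZFSet.{0} | x ∈ s}.Countable ∧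
      ∀ P₀ ∈ s, ∀ L₀ ∈ s, IsPre P₀ L₀ → ∃ G₀ : Set ZFSet.{0}, Generic (L.St s) P₀ L₀ G₀ ∧
        ¬ UnC (Reals (cxt (L.St s) G₀)) n := by
  classical
  let 𝒢 : M → M → Set ZFSet.{0} := fun P Lo =>
    if h : IsPre P.1 Lo.1 then (hbad P Lo h).choose else ∅
  have h𝒢 : ∀ P Lo : M, IsPre P.1 Lo.1 → Generic M P.1 Lo.1 (𝒢 P Lo) ∧
      ¬ UnC (Reals (cxt M (𝒢 P Lo))) n := by
    intro P Lo h
    have e : 𝒢 P Lo = (hbad P Lo h).choose := dif_pos h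
    rw [e]
    exact (hbad P Lo h).choose_spec
  obtain ⟨RR, hRR⟩ : ∃ RR : M → M → Set (ℕ → ℕ), ∀ P Lo, RR P Lo = Reals (cxt M (𝒢 P Lo)) :=
    ⟨_, fun _ _ => rfl⟩
  obtain ⟨X, s, h⟩ := exists_rf hT hL (EF 𝒢 RR n)
  have hGM : L.GM s := h.gm
  refine ⟨s, h.gm, h.cnt, fun P₀ hP₀ L₀ hL₀ hpre => ?_⟩
  obtain ⟨P, hPX, rfl⟩ := (h.mem_s _).1 hP₀
  obtain ⟨Lo, hLX, rfl⟩ := (h.mem_s _).1 hL₀
  obtain ⟨P, rfl⟩ : ∃ P' : M, P'.1 = P := ⟨⟨P, h.sub hPX⟩, rfl⟩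
  obtain ⟨Lo, rfl⟩ : ∃ L' : M, L'.1 = Lo := ⟨⟨Lo, h.sub hLX⟩, rfl⟩
  have hpm : ∀ p ∈ X, ∀ q ∈ X, ∀ y, ZFSet.pair (L.col X p) (L.col X q) ∈ L.col X y ↔
      ZFSet.pair p q ∈ y := by
    intro p hp q hq y
    obtain ⟨h1, h2⟩ := h.pair p hp q hq
    rw [← h2]
    exact h.mem _ h1 y
  have hmP : ∀ p ∈ X, L.col X p ∈ L.col X P.1 ↔ p ∈ P.1 := fun p hp => h.mem p hp _
  have hIs : IsPre P.1 Lo.1 := by
    refine ⟨?_, ?_, ?_⟩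
    · obtain ⟨p₀, hp₀⟩ := hpre.ne
      obtain ⟨p, hp, -, -⟩ := L.mem_col.1 hp₀
      exact ⟨p, hp⟩
    · by_contra hc
      push Not at hc
      obtain ⟨p, hp, h1⟩ := hc
      obtain ⟨z, hz, h2, h3⟩ := h.ee 4 0 hPX hLX hPX hPX hPX ⟨⟨p, hT _ P.2 p hp⟩, hp, h1⟩
      exact h3 ((hpm _ hz _ hz _).1 (hpre.refl _ ((hmP _ hz).2 h2)))
    · by_contra hc
      push Not at hc
      obtain ⟨p, hp, q, hq, r, hr, h1, h2, h3⟩ := hc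
      obtain ⟨a, ha, h4, q, hq, r, hr, h5, h6, h7⟩ := h.ee 5 0 hPX hLX hPX hPX hPX
        ⟨⟨p, hT _ P.2 p hp⟩, hp, q, hq, r, hr, h1, h2, h3⟩
      obtain ⟨b, hb, h8, r, hr, h9, h10, h11⟩ := h.ee 6 0 hPX hLX ha hPX hPX
        ⟨⟨q, hT _ P.2 q hq⟩, hq, r, hr, h5, h6, h7⟩
      obtain ⟨c, hc, h12, h13, h14, h15⟩ := h.ee 7 0 hPX hLX ha hb hPX
        ⟨⟨r, hT _ P.2 r hr⟩, hr, h9, h10, h11⟩
      exact h15 ((hpm _ ha _ hc _).1 (hpre.trans _ ((hmP _ ha).2 h4) _ ((hmP _ hb).2 h8) _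
        ((hmP _ hc).2 h12) ((hpm _ ha _ hb _).2 h13) ((hpm _ hb _ hc _).2 h14)))
  obtain ⟨hgen, hnu⟩ := h𝒢 P Lo hIs
  obtain ⟨G, hGdef⟩ : ∃ G, G = 𝒢 P Lo := ⟨_, rfl⟩
  rw [← hGdef] at hgen hnu
  have hGin : ∀ p ∈ G, p ∈ M := fun p hp => hT _ P.2 p (hgen.sub p hp)
  obtain ⟨G₀, hG₀⟩ : ∃ G₀ : Set ZFSet.{0}, G₀ = {y | ∃ x ∈ X, x ∈ G ∧ L.col X x = y} := ⟨_, rfl⟩
  have hmG : ∀ p ∈ X, L.col X p ∈ G₀ ↔ p ∈ G := by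
    intro p hp
    rw [hG₀]
    constructor
    · rintro ⟨x, hx, h1, h2⟩
      rwa [← h.inj x hx p hp h2]
    · intro h1
      exact ⟨p, hp, h1, rfl⟩
  have hexG : ∀ y ∈ G₀, ∃ x ∈ X, x ∈ G ∧ L.col X x = y := by
    intro y hy
    rw [hG₀] at hy
    exact hy
  have hgen₀ : Generic (L.St s) (L.col X P.1) (L.col X Lo.1) G₀ := by
    refine ⟨?_, ?_, ?_, ?_, ?_⟩
    · intro y hy
      obtain ⟨x, hx, h1, rfl⟩ := hexG y hy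
      exact (hmP x hx).2 (hgen.sub x h1)
    · obtain ⟨p, hp⟩ := hgen.ne
      obtain ⟨z, hz, h1⟩ := h.ee 0 0 hPX hLX hPX hPX hPX ⟨⟨p, hGin p hp⟩, by
        show p ∈ 𝒢 P Lo
        rwa [← hGdef]⟩
      refine ⟨L.col X z.1, (hmG _ hz).2 ?_⟩
      rw [hGdef]
      exact h1
    · intro y hy q hq hyq
      obtain ⟨x, hx, h1, rfl⟩ := hexG y hy
      obtain ⟨w, hw, hwX, rfl⟩ := L.mem_col.1 hq
      exact (hmG w hwX).2 (hgen.up x h1 w hw ((hpm x hx w hwX _).1 hyq))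
    · intro y hy y' hy'
      obtain ⟨x, hx, h1, rfl⟩ := hexG y hy
      obtain ⟨x', hx', h1', rfl⟩ := hexG y' hy'
      obtain ⟨r, hr, h2, h3⟩ := hgen.dir x h1 x' h1'
      obtain ⟨z, hz, h4, h5, h6⟩ := h.ee 1 0 (P := P) (Lo := Lo) (a := ⟨x, h.sub hx⟩)
        (b := ⟨x', h.sub hx'⟩) (c := P) hPX hLX hx hx' hPX ⟨⟨r, hGin r hr⟩, by
          refine ⟨?_, h2, h3⟩
          show r ∈ 𝒢 P Lo
          rwa [← hGdef]⟩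
      refine ⟨L.col X z.1, (hmG _ hz).2 ?_, (hpm _ hz _ hx _).2 h5, (hpm _ hz _ hx' _).2 h6⟩
      rw [hGdef]
      exact h4
    · intro D₀ hD₀ hdense
      obtain ⟨D, hDX, rfl⟩ := (h.mem_s _).1 hD₀
      have hD : ∀ p ∈ P.1, ∃ q ∈ P.1, ZFSet.pair q p ∈ Lo.1 ∧ q ∈ D := by
        by_contra hc
        push Not at hc
        obtain ⟨p, hp, h1⟩ := hc
        obtain ⟨z, hz, h2, h3⟩ := h.ee 2 0 (P := P) (Lo := Lo) (a := ⟨D, h.sub hDX⟩)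
          (b := P) (c := P) hPX hLX hDX hPX hPX ⟨⟨p, hT _ P.2 p hp⟩, hp, h1⟩
        obtain ⟨q₀, hq₀, h4, h5⟩ := hdense _ ((hmP _ hz).2 h2)
        obtain ⟨q, hq, hqX, rfl⟩ := L.mem_col.1 hq₀
        exact h3 q hq ((hpm q hqX _ hz _).1 h4) ((h.mem q hqX D).1 h5)
      obtain ⟨p, hp, hpD⟩ := hgen.meets D (h.sub hDX) hD
      obtain ⟨z, hz, h4, h5⟩ := h.ee 3 0 (P := P) (Lo := Lo) (a := ⟨D, h.sub hDX⟩)
        (b := P) (c := P) hPX hLX hDX hPX hPX ⟨⟨p, hGin p hp⟩, by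
          refine ⟨?_, hpD⟩
          show p ∈ 𝒢 P Lo
          rwa [← hGdef]⟩
      refine ⟨L.col X z.1, (hmG _ hz).2 ?_, (h.mem _ hz D).2 h5⟩
      rw [hGdef]
      exact h4
  refine ⟨G₀, hgen₀, ?_⟩
  -- names
  have hNR : ∀ r ∈ X, ∀ x, NR G₀ (L.col X r) x ↔ NR G r x := by
    intro r hr x
    have e : ∀ m k : ℕ, (∃ p ∈ G₀, ZFSet.pair (ZFSet.pair (num m) (num k)) p ∈ L.col X r) ↔
        ∃ p ∈ G, ZFSet.pair (ZFSet.pair (num m) (num k)) p ∈ r := by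
      intro m k
      obtain ⟨h1, h2⟩ := h.pair _ (h.num m).1 _ (h.num k).1
      rw [(h.num m).2, (h.num k).2] at h2
      constructor
      · rintro ⟨p₀, hp₀, h3⟩
        obtain ⟨p, hp, hpG, rfl⟩ := hexG p₀ hp₀
        refine ⟨p, hpG, (hpm _ h1 p hp r).1 ?_⟩
        rw [h2]
        exact h3
      · rintro ⟨p, hp, h3⟩
        obtain ⟨z, hz, h4, h5⟩ := h.ee 8 (Nat.pair m k) (P := P) (Lo := Lo) (a := ⟨r, h.sub hr⟩)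
          (b := P) (c := P) hPX hLX hr hPX hPX ⟨⟨p, hGin p hp⟩, by
            refine ⟨?_, ?_⟩
            · show p ∈ 𝒢 P Lo
              rwa [← hGdef]
            · show ZFSet.pair (ZFSet.pair (num (Nat.pair m k).unpair.1)
                (num (Nat.pair m k).unpair.2)) p ∈ r
              rwa [Nat.unpair_pair]⟩
        rw [Nat.unpair_pair] at h5
        refine ⟨L.col X z.1, (hmG _ hz).2 ?_, ?_⟩
        · rw [hGdef]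
          exact h4
        · have h6 := (hpm _ h1 _ hz r).2 h5
          rwa [h2] at h6
    unfold NR
    simp only [e]
  have hg := gen_of_generic hT hIs.refl hIs.trans hgen
  have hg₀ : Z.Gen (M := L.St s) ⟨L.col X P.1, hP₀⟩ ⟨L.col X Lo.1, hL₀⟩
      {x : L.St s | (x : ZFSet.{0}) ∈ G₀} :=
    gen_of_generic (M := L.St s) (P := ⟨L.col X P.1, hP₀⟩) (L := ⟨L.col X Lo.1, hL₀⟩)
      hGM.lev.tr hpre.refl hpre.trans hgen₀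
  obtain ⟨R, hR⟩ : ∃ R, R = Reals (cxt M G) := ⟨_, rfl⟩
  obtain ⟨R₀, hR₀⟩ : ∃ R₀, R₀ = Reals (cxt (L.St s) G₀) := ⟨_, rfl⟩
  rw [← hR] at hnu
  rw [← hR₀]
  have hRP : RR P Lo = R := by rw [hRR, hR, hGdef]
  have hmR : ∀ x, x ∈ R ↔ ∃ r ∈ M, NR G r x := by
    intro x
    rw [hR]
    exact mem_reals_cxt hT hg hGin
  have hmR₀ : ∀ x, x ∈ R₀ ↔ ∃ r ∈ X, NR G r x := by
    intro x
    rw [hR₀]
    refine (mem_reals_cxt (M := L.St s) hGM.lev.tr hg₀ (fun p hp => ?_)).trans ?_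
    · obtain ⟨q, hq, -, rfl⟩ := hexG p hp
      exact (h.mem_s _).2 ⟨q, hq, rfl⟩
    · constructor
      · rintro ⟨r₀, hr₀, h1⟩
        obtain ⟨r, hr, rfl⟩ := (h.mem_s _).1 hr₀
        exact ⟨r, hr, (hNR r hr x).1 h1⟩
      · rintro ⟨r, hr, h1⟩
        exact ⟨L.col X r, (h.mem_s _).2 ⟨r, hr, rfl⟩, (hNR r hr x).2 h1⟩
  have hsub : ∀ x ∈ R₀, x ∈ R := by
    intro x hx
    obtain ⟨r, hr, h1⟩ := (hmR₀ x).1 hx
    exact (hmR x).2 ⟨r, h.sub hr, h1⟩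
  have hRC : RC R₀ := by
    rw [hR₀]
    have := cxt_zfc (M := L.St s) hg₀
    exact RC_Reals (cxt_tr _)
  have hjn : ∀ x ∈ R₀, ∀ y ∈ R₀, jn x y ∈ R₀ := fun x hx y hy => P5_jn_mem hRC hx hy
  have hTS : ∀ m, ∀ b ∈ R₀, ∀ x ∈ R₀, (TS R m b x ↔ TS R₀ m b x) := by
    intro m
    induction m with
    | zero => exact fun b _ x _ => Iff.rfl
    | succ m ih =>
      intro b hb x hx
      constructor
      · rintro ⟨y, hy, h1⟩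
        obtain ⟨rb, hrb, h2⟩ := (hmR₀ b).1 hb
        obtain ⟨rx, hrx, h3⟩ := (hmR₀ x).1 hx
        obtain ⟨ry, hry, h4⟩ := (hmR y).1 hy
        obtain ⟨z, hz, u, x', y', h5, h6, h7, h8⟩ := h.ee 9 m (P := P) (Lo := Lo)
          (a := ⟨rb, h.sub hrb⟩) (b := ⟨rx, h.sub hrx⟩) (c := P) hPX hLX hrb hrx hPX
          ⟨⟨ry, hry⟩, b, x, y, by rwa [← hGdef], by rwa [← hGdef], by rwa [← hGdef], by
            rw [hRP]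
            exact h1⟩
        rw [← hGdef] at h5 h6 h7
        rw [hRP, h5.unique h2, h6.unique h3] at h8
        have hy' : y' ∈ R₀ := (hmR₀ y').2 ⟨z.1, hz, h7⟩
        exact ⟨y', hy', fun h9 => h8 ((ih b hb _ (hjn x hx y' hy')).2 h9)⟩
      · rintro ⟨y, hy, h1⟩
        exact ⟨y, hsub y hy, fun h9 => h1 ((ih b hb _ (hjn x hx y hy)).1 h9)⟩
  rw [not_unC_iff] at hnu ⊢
  obtain ⟨b, hb, hbb⟩ := hnu
  obtain ⟨rb, hrb, h1⟩ := (hmR b).1 hb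
  obtain ⟨z, hz, u, h2, h3⟩ := h.ee 10 0 hPX hLX hPX hPX hPX
    ⟨⟨rb, hrb⟩, b, by rwa [← hGdef], by rw [hRP]; exact hbb⟩
  rw [← hGdef] at h2
  rw [hRP] at h3
  have hu : u ∈ R₀ := (hmR₀ u).2 ⟨z.1, hz, h2⟩
  refine ⟨u, hu, fun b' hb' => ?_⟩
  obtain ⟨rb', hrb', h4⟩ := (hmR₀ b').1 hb'
  obtain ⟨x, hx, y, hy, h5⟩ := h3 b' (hsub b' hb')
  obtain ⟨rx, hrx, h6⟩ := (hmR x).1 hx
  obtain ⟨zx, hzx, u', b'', x', h7, h8, h9, y, hy, h10⟩ := h.ee 11 0 (P := P) (Lo := Lo) (a := z)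
    (b := ⟨rb', h.sub hrb'⟩) (c := P) hPX hLX hz hrb' hPX
    ⟨⟨rx, hrx⟩, u, b', x, by rwa [← hGdef], by rwa [← hGdef], by rwa [← hGdef], y, by
      rw [hRP]
      exact hy, by
      rw [hRP]
      exact h5⟩
  rw [← hGdef] at h7 h8 h9
  rw [hRP, h7.unique h2, h8.unique h4] at h10
  rw [hRP] at hy
  have hx' : x' ∈ R₀ := (hmR₀ x').2 ⟨zx.1, hzx, h9⟩
  obtain ⟨ry, hry, h11⟩ := (hmR y).1 hy
  obtain ⟨zy, hzy, u₁, b₁, x₁, y₁, h12, h13, h14, h15, h16⟩ := h.ee 12 0 (P := P) (Lo := Lo)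
    (a := z) (b := ⟨rb', h.sub hrb'⟩) (c := zx) hPX hLX hz hrb' hzx
    ⟨⟨ry, hry⟩, u, b', x', y, by rwa [← hGdef], by rwa [← hGdef], by rwa [← hGdef], by
      rwa [← hGdef], by
      rw [hRP]
      exact h10⟩
  rw [← hGdef] at h12 h13 h14 h15
  rw [hRP, h12.unique h2, h13.unique h4, h14.unique h9] at h16
  have hy' : y₁ ∈ R₀ := (hmR₀ y₁).2 ⟨zy.1, hzy, h15⟩
  refine ⟨x', hx', y₁, hy', ?_⟩
  rcases h16 with ⟨h17, h18⟩ | ⟨h17, h18⟩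
  · exact Or.inl ⟨fun h => h17 ((hTS n b' hb' _ (hjn x' hx' y₁ hy')).2 h),
      (hTS n u hu _ (hjn x' hx' y₁ hy')).1 h18⟩
  · refine Or.inr ⟨fun h => h17 ((hTS n u hu _ (hjn x' hx' y₁ hy')).2 h), fun w hw h19 => ?_⟩
    obtain ⟨w', hw', h20, h21⟩ := h18 w (hsub w hw)
      (fun h => h19 ((hTS n b' hb' _ (hjn x' hx' w hw)).1 h))
    obtain ⟨rw', hrw', h22⟩ := (hmR w').1 hw'
    obtain ⟨rw₁, hrw₁, h23⟩ := (hmR₀ w).1 hw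
    obtain ⟨zw, hzw, b₂, x₂, w₂, w₃, h24, h25, h26, h27, h28, h29⟩ := h.ee 13 0 (P := P)
      (Lo := Lo) (a := ⟨rb', h.sub hrb'⟩) (b := zx) (c := ⟨rw₁, h.sub hrw₁⟩) hPX hLX hrb' hzx hrw₁
      ⟨⟨rw', hrw'⟩, b', x', w, w', by rwa [← hGdef], by rwa [← hGdef], by rwa [← hGdef], by
        rwa [← hGdef], by
        rw [hRP]
        exact h20, h21⟩
    rw [← hGdef] at h24 h25 h26 h27
    rw [hRP, h24.unique h4, h25.unique h9] at h28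
    rw [h26.unique h23] at h29
    have hw₃ : w₃ ∈ R₀ := (hmR₀ w₃).2 ⟨zw.1, hzw, h27⟩
    exact ⟨w₃, hw₃, fun h => h28 ((hTS n b' hb' _ (hjn x' hx' w₃ hw₃)).2 h), h29⟩

end Pool.Agent.H.MP_20495c_lc.K
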