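import Pool.Agent.H.MP_20495c_lc.K.C1
import Pool.Agent.H.MP_20495c_lc.G.Main

/-!
# MP_20495c_lc, block K, part 5: the class `L` of all constructible sets

`L.LL` is a transitive class which contains all ordinals and satisfies ZFC and the axiom of
constructibility.
-/

set_option autoImplicit false
set_option linter.unusedSectionVars false

namespace Pool.Agent.H.MP_20495c_lc.K

open Pool.Agent.H.MP_07d118_lc Pool.Agent.H.MP_a163f2_lc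

variable {M : Set ZFSet.{0}}

/-- `a` is a counterexample for the axiom of choice -/
def Bad (a : M) : Prop :=
  (∀ x : M, x ∈ a → ∃ y : M, y ∈ x) ∧
    (∀ x y z : M, x ∈ a → y ∈ a → z ∈ x → z ∈ y → x = y) ∧
    ∀ c : M, ∃ x : M, x ∈ a ∧ ¬ ∃! y : M, y ∈ x ∧ y ∈ c

/-- witnesses -/
def EB (c : ℕ) (v : ℕ → M) (z : M) : Prop :=
  (c = 0 ∧ z ∈ v 0 ∧ ¬ ∃! y : M, y ∈ z ∧ y ∈ v 1) ∨ (c = 1 ∧ z ∈ v 0 ∧ z ∈ v 1 ∧ z ≠ v 2) ∨
    (c = 2 ∧ Bad z)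

theorem ec_three (a b c : M) : L.EC (cons a (cons b (fun _ => c))) := by
  refine ⟨2, fun i hi => ?_⟩
  obtain ⟨j, rfl⟩ : ∃ j, i = j + 2 := ⟨i - 2, by omega⟩
  rfl

/-- a transitive model of ZF whose elements belong to its levels satisfies the axiom of choice -/
theorem zfc_of_lm (hT : Trans M) [ZF M] (hL : LM M) : ZFC M := by
  by_contra hcon
  have hbad : ∃ a : M, Bad a := by
    by_contra hno
    refine hcon ⟨fun a h1 h2 => ?_⟩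
    by_contra h3
    push Not at h3
    exact hno ⟨a, h1, h2, h3⟩
  obtain ⟨X, s, hX⟩ := exists_rf hT hL (EB (M := M))
  have hG : L.GM s := hX.gm
  have hce : ∀ (c : ℕ) (x y w : M), x.1 ∈ X → y.1 ∈ X → w.1 ∈ X →
      (∃ z, EB c (cons x (cons y (fun _ => w))) z) →
      ∃ z : M, z.1 ∈ X ∧ EB c (cons x (cons y (fun _ => w))) z := by
    intro c x y w hx hy hw
    refine hX.cl c _ ?_ (ec_three x y w)
    intro i
    match i with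
    | 0 => exact hx
    | 1 => exact hy
    | _ + 2 => exact hw
  obtain ⟨a0, ha0⟩ := hbad
  have hnum := hX.num 0
  obtain ⟨a, haX, ha⟩ : ∃ a : M, a.1 ∈ X ∧ Bad a := by
    have hn : num 0 ∈ M := hX.sub hnum.1
    obtain ⟨z, hz, hz'⟩ := hce 2 ⟨num 0, hn⟩ ⟨num 0, hn⟩ ⟨num 0, hn⟩ hnum.1 hnum.1 hnum.1
      ⟨a0, Or.inr (Or.inr ⟨rfl, ha0⟩)⟩
    rcases hz' with ⟨h, -⟩ | ⟨h, -⟩ | ⟨-, h⟩
    · omega
    · omega
    · exact ⟨z, hz, h⟩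
  obtain ⟨ha1, ha2, ha3⟩ := ha
  have hcs : ∀ x ∈ X, L.col X x ∈ s := fun x hx => (hX.mem_s _).2 ⟨x, hx, rfl⟩
  obtain ⟨c', hc'⟩ := ZFC.choice (M := L.St s) ⟨L.col X a.1, hcs _ haX⟩ (by
    rintro ⟨x', hx's⟩ hx'
    obtain ⟨x, hxa, hxX, rfl⟩ := L.mem_col.1 (show x' ∈ L.col X a.1 from hx')
    obtain ⟨y, hy⟩ := ha1 ⟨x, hX.sub hxX⟩ hxa
    obtain ⟨z, hzX, hz⟩ := hX.el x hxX ⟨y.1, hy⟩
    exact ⟨⟨L.col X z, hcs z hzX⟩, (hX.mem z hzX x).2 hz⟩) (by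
    rintro ⟨x', hx's⟩ ⟨y', hy's⟩ ⟨z', hz's⟩ hx' hy' hzx' hzy'
    obtain ⟨x, hxa, hxX, rfl⟩ := L.mem_col.1 (show x' ∈ L.col X a.1 from hx')
    obtain ⟨y, hya, hyX, rfl⟩ := L.mem_col.1 (show y' ∈ L.col X a.1 from hy')
    obtain ⟨z, hzx, hzX, rfl⟩ := L.mem_col.1 (show z' ∈ L.col X x from hzx')
    have hzy : z ∈ y := (hX.mem z hzX y).1 hzy'
    have h := ha2 ⟨x, hX.sub hxX⟩ ⟨y, hX.sub hyX⟩ ⟨z, hX.sub hzX⟩ hxa hya hzx hzy
    have h' : x = y := congrArg Subtype.val h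
    subst h'
    rfl)
  obtain ⟨c, hcX, hcc⟩ := (hX.mem_s c'.1).1 c'.2
  obtain ⟨x1, hx1⟩ := ha3 ⟨c, hX.sub hcX⟩
  obtain ⟨x, hxX, hx'⟩ := hce 0 a ⟨c, hX.sub hcX⟩ ⟨c, hX.sub hcX⟩ haX hcX hcX
    ⟨x1, Or.inl ⟨rfl, hx1⟩⟩
  obtain ⟨hxa, hxc⟩ : x ∈ a ∧ ¬ ∃! y : M, y ∈ x ∧ y ∈ (⟨c, hX.sub hcX⟩ : M) := by
    rcases hx' with ⟨-, h⟩ | ⟨h, -⟩ | ⟨h, -⟩
    · exact h
    · omega
    · omega
  obtain ⟨y', ⟨hyx', hyc'⟩, hu⟩ := hc' ⟨L.col X x.1, hcs _ hxX⟩ ((hX.mem x.1 hxX a.1).2 hxa)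
  obtain ⟨y, hyx, hyX, hyy⟩ := L.mem_col.1 (show y'.1 ∈ L.col X x.1 from hyx')
  have hyc : y ∈ c := by
    refine (hX.mem y hyX c).1 ?_
    rw [hyy, hcc]
    exact hyc'
  refine hxc ⟨⟨y, hX.sub hyX⟩, ⟨hyx, hyc⟩, ?_⟩
  rintro ⟨w, hwM⟩ ⟨hwx, hwc⟩
  by_contra hne
  obtain ⟨z, hzX, hz'⟩ := hce 1 x ⟨c, hX.sub hcX⟩ ⟨y, hX.sub hyX⟩ hxX hcX hyX
    ⟨⟨w, hwM⟩, Or.inr (Or.inl ⟨rfl, hwx, hwc, hne⟩)⟩
  obtain ⟨hzx, hzc, hzy⟩ : z ∈ x ∧ z ∈ (⟨c, hX.sub hcX⟩ : M) ∧ z ≠ ⟨y, hX.sub hyX⟩ := by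
    rcases hz' with ⟨h, -⟩ | ⟨-, h⟩ | ⟨h, -⟩
    · omega
    · exact h
    · omega
  have h1 := hu ⟨L.col X z.1, hcs _ hzX⟩ ⟨(hX.mem z.1 hzX x.1).2 hzx, by
    have h2 : L.col X z.1 ∈ L.col X c := (hX.mem z.1 hzX c).2 hzc
    rw [hcc] at h2
    exact h2⟩
  have h2 : L.col X z.1 = L.col X y := by
    rw [hyy]
    exact congrArg Subtype.val h1
  exact hzy (Subtype.ext (hX.inj z.1 hzX y hyX h2))

theorem lm_ll : LM L.LL := by
  rintro x ⟨a, ha, hx⟩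
  exact ⟨a, ha.mem_LL, ha, hx⟩

theorem zfc_ll : ZFC L.LL := by
  have := L.LL_zf
  exact zfc_of_lm L.LL_trans lm_ll

/-- all ordinals are constructible -/
theorem ord_ll (x : ZFSet.{0}) (hx : x.IsOrdinal) : x ∈ L.LL := by
  have := L.LL_zf
  induction x using ZFSet.inductionOn with
  | _ x ih =>
    obtain ⟨a, ha, hxa⟩ := L.LL_bound_set x (fun y => y) fun y hy => ih y hy (hx.mem hy)
    obtain ⟨t, ht⟩ : ∃ t : L.LL, t.1 = a := ⟨⟨a, ha.mem_LL⟩, rfl⟩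
    have hmem : ∀ x : L.LL, x ∈ sep t Main_Ord ↔ x ∈ t ∧ Main_Ord x := fun x =>
      mem_sep Main_ord_df
    have hsub : x ⊆ (sep t Main_Ord : L.LL).1 := by
      intro y hy
      have hyL : y ∈ L.LL := ih y hy (hx.mem hy)
      refine (hmem ⟨y, hyL⟩).2 ⟨?_, (Main_ord_iff L.LL_trans _).2 (hx.mem hy)⟩
      show y ∈ t.1
      rw [ht]
      exact hxa y hy
    have ho : (sep t Main_Ord : L.LL).1.IsOrdinal := by
      rw [ZFSet.isOrdinal_iff_forall_mem_isOrdinal]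
      constructor
      · intro y hy z hz
        have hyM : y ∈ L.LL := L.LL_trans _ (sep t Main_Ord : L.LL).2 _ hy
        have hzM : z ∈ L.LL := L.LL_trans _ hyM _ hz
        obtain ⟨hyt, hyo⟩ := (hmem ⟨y, hyM⟩).1 hy
        have h1 := (Main_ord_iff L.LL_trans _).1 hyo
        have h2 : z.IsOrdinal := h1.mem hz
        refine (hmem ⟨z, hzM⟩).2 ⟨?_, (Main_ord_iff L.LL_trans _).2 h2⟩
        have hyt' : y ∈ t.1 := hyt
        show z ∈ t.1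
        rw [ht] at hyt' ⊢
        exact ha.tr y hyt' z hz
      · intro y hy
        have hyM : y ∈ L.LL := L.LL_trans _ (sep t Main_Ord : L.LL).2 _ hy
        exact (Main_ord_iff L.LL_trans _).1 ((hmem ⟨y, hyM⟩).1 hy).2
    rcases (hx.subset_iff_eq_or_mem ho).1 hsub with h | h
    · rw [h]
      exact (sep t Main_Ord : L.LL).2
    · exact L.LL_trans _ (sep t Main_Ord : L.LL).2 _ h

/-- the class of all constructible sets satisfies the axiom of constructibility -/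
theorem vl_ll : VL L.LL := by
  intro N hN hNt hNz hord
  have : G.TM N := ⟨hNt, hNz⟩
  have := L.LL_zf
  refine Set.Subset.antisymm hN ?_
  rintro x ⟨a, ha, hxa⟩
  refine hNt a ?_ x hxa
  by_contra haN
  have hsub : ∀ y ∈ G.LC N, y ∈ a := by
    rintro y ⟨b, hb, hbl, hyb⟩
    rcases hbl.cmp ha with h | h | h
    · exact ha.tr b h y hyb
    · exact absurd (h ▸ hb) haN
    · exact absurd (hNt b hb a h) haN
  obtain ⟨o, ho, hoa⟩ := Main_no_set L.LL_trans (⟨a, ha.mem_LL⟩ : L.LL)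
  exact hoa (hsub o.1 (G.lc_ord o.1 (hord o.1 o.2 ho) ho))

/-- **The class `L`**: there is a transitive class which contains all ordinals and satisfies ZFC
and the axiom of constructibility. -/
theorem exists_ll : ∃ M : Set ZFSet.{0}, Trans M ∧ ZFC M ∧ VL M ∧
    ∀ x : ZFSet.{0}, x.IsOrdinal → x ∈ M :=
  ⟨L.LL, L.LL_trans, zfc_ll, vl_ll, ord_ll⟩

end Pool.Agent.H.MP_20495c_lc.K
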