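import Pool.Agent.H.MP_20495c_lc.K.C3
import Pool.Agent.H.MP_20495c_lc.Fin

/-!
# MP_20495c_lc, block K, part 4: the final theorem for all transitive classes
-/

set_option autoImplicit false
set_option linter.unusedSectionVars false

namespace Pool.Agent.H.MP_20495c_lc

open Pool.Agent.H.MP_07d118_lc Pool.Agent.H.MP_a163f2_lc

/-- the axiom of constructibility gives levels -/
theorem K.lm_of_vl {M : Set ZFSet.{0}} (hT : Trans M) (hZ : ZF M) (hV : VL M) : K.LM M := by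
  have : G.TM M := ⟨hT, hZ⟩
  have hLC : G.LC M = M := hV (G.LC M) G.lc_sub G.lc_trans G.lc_zf G.lc_ord
  intro x hx
  rw [← hLC] at hx
  obtain ⟨b, hb, h1, h2⟩ := hx
  exact ⟨b, hb, h1, h2⟩

/-- **The final theorem**, for every transitive class (countable or not, a set or not) which
satisfies ZFC and the axiom of constructibility. -/
theorem final_class {M : Set ZFSet.{0}} (hT : Trans M) (hZ : ZFC M) (hV : VL M) {n : ℕ}
    (hn : 3 ≤ n) : ∃ P ∈ M, ∃ L ∈ M, IsPre P L ∧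
      ∀ G : ZFSet.{0}, Generic M P L {x | x ∈ G} →
        ∃ N : Set ZFSet.{0}, IsGext M G N ∧ Unif (PiM (Reals N) n 2) := by
  have := hZ
  by_contra hcon
  push Not at hcon
  have hbad : ∀ P Lo : M, IsPre P.1 Lo.1 → ∃ G : Set ZFSet.{0}, Generic M P.1 Lo.1 G ∧
      ¬ UnC (Reals (K.cxt M G)) n := by
    intro P Lo hpre
    obtain ⟨G, hG, h1⟩ := hcon P.1 P.2 Lo.1 Lo.2 hpre
    refine ⟨{x | x ∈ G}, hG, fun hU => h1 _ (K.isGext_cxt hT P.2 Lo.2 hpre hG) ?_⟩
    have hg := K.gen_of_generic hT (P := P) (L := Lo) hpre.refl hpre.trans hG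
    have : ZFC (K.cxt M {x | x ∈ G}) := K.cxt_zfc hg
    exact unif_of_unC (RC_Reals (K.cxt_tr _)) hU
  obtain ⟨s, hs, hc, hr⟩ := K.reflect hT (K.lm_of_vl hT inferInstance hV) hbad
  have : Mdl (L.St s) := ⟨hs.lev.tr, hc, inferInstance⟩
  obtain ⟨m, rfl⟩ := Nat.exists_eq_add_of_le' hn
  obtain ⟨N, h1, h2⟩ := exists_unC (vl_st hs) m
  obtain ⟨P, hP, Lo, hL, h3, h4, h5, h6⟩ := exists_forcing h1 h2
  obtain ⟨G, hG, h7⟩ := hr P hP Lo hL ⟨h3, h4, h5⟩
  exact h7 (h6 G hG)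

end Pool.Agent.H.MP_20495c_lc
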